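import Pool.Agent.N382.B2.Graph

/-!
# The 2-broadcast domination number is at most `(2 n + 4) / 3`

Every connected graph of order `n ≥ 2` (in particular every tree) satisfies
`γ_{b2} ≤ (2 n + 4) / 3`, as conjectured by Henning, MacGillivray and Yang for trees.

Proof.  Take a longest path `v 0, …, v d` and let `H i` be the depth of what hangs at `v i` (in a
shortest path forest); then `H i ≤ min (i, d - i)` and `d + 1 + ∑ H i ≤ n`.  A vertex `u` hanging at
`v i` hears a vertex `v c` of strength `r` if the interval `[i - H i, i + H i]` is contained in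
`[c - r, c + r]`.  Intervals which intersect are merged, which does not increase the sum of the radii
(if the result is everything and does not fit, two large balls are cheap enough).  For disjoint
intervals two covers are built from left to right, with distinct centres.  The two covers extend
beyond the right end of the current interval by `{2, 1}`, `{2, 0}` or `{1, 0}`; one of these three
states can be kept, without any loss, for every gap and every radius, if the ball which reaches
farthest may be replaced by a larger one.
-/

set_option autoImplicit false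

namespace Pool.Agent.Results.MP_888150_co.TwoBroadcast

/-- `f` is a dominating 2-broadcast on `G`: all values are at most the diameter, and every vertex `u`
hears at least two different vertices `v` (it hears `v` if `f v > 0` and `d(u, v) ≤ f v`). -/
def IsDominating2Broadcast {V : Type*} (G : SimpleGraph V) (f : V → ℕ) : Prop :=
  (∀ v, f v ≤ G.diam) ∧
    ∀ u, ∃ v₁ v₂, v₁ ≠ v₂ ∧ (0 < f v₁ ∧ G.dist u v₁ ≤ f v₁) ∧ (0 < f v₂ ∧ G.dist u v₂ ≤ f v₂)

/-- The 2-broadcast domination number: the minimum cost of a dominating 2-broadcast. -/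
noncomputable def gammaB2 {V : Type*} [Fintype V] (G : SimpleGraph V) : ℕ :=
  sInf {c | ∃ f : V → ℕ, IsDominating2Broadcast G f ∧ ∑ v, f v = c}

/-- Every connected graph with `n ≥ 2` vertices, in particular every tree, has a dominating
2-broadcast, and the minimum cost of one is at most `(2 n + 4) / 3`. -/
theorem result.{u} :
    (∀ (V : Type u) [Fintype V] (T : SimpleGraph V), T.IsTree → 2 ≤ Fintype.card V →
      (∃ f, IsDominating2Broadcast T f) ∧
        (gammaB2 T : ℝ) ≤ (2 * (Fintype.card V : ℝ) + 4) / 3) ∧
    (∀ (V : Type u) [Fintype V] (G : SimpleGraph V), G.Connected → 2 ≤ Fintype.card V →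
      (∃ f, IsDominating2Broadcast G f) ∧
        (gammaB2 G : ℝ) ≤ (2 * (Fintype.card V : ℝ) + 4) / 3) := by
  have key : ∀ (V : Type u) [Fintype V] (G : SimpleGraph V), G.Connected → 2 ≤ Fintype.card V →
      (∃ f, IsDominating2Broadcast G f) ∧
        (gammaB2 G : ℝ) ≤ (2 * (Fintype.card V : ℝ) + 4) / 3 := by
    intro V _ G hG hV
    obtain ⟨f, h1, h2, h3⟩ := Pool.Agent.N382.B2.exists_broadcast G hG hV
    have hf : IsDominating2Broadcast G f := by
      refine ⟨h1, fun u => ?_⟩
      obtain ⟨x, y, hxy, a, b, c, e⟩ := h2 u
      exact ⟨x, y, hxy, ⟨a, c⟩, ⟨b, e⟩⟩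
    refine ⟨⟨f, hf⟩, ?_⟩
    have hle : gammaB2 G ≤ ∑ v, f v := Nat.sInf_le ⟨f, hf, rfl⟩
    have h4 : 3 * gammaB2 G ≤ 2 * Fintype.card V + 4 := by omega
    have h5 : (3 : ℝ) * (gammaB2 G : ℝ) ≤ 2 * (Fintype.card V : ℝ) + 4 := by exact_mod_cast h4
    linarith
  exact ⟨fun V _ T hT hV => key V T hT.connected hV, key⟩

end Pool.Agent.Results.MP_888150_co.TwoBroadcast
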